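import Pool.Agent.J4H22.IX.Stm

/-! # Project IX (helper22): the pieces MAJ and HIT -/

set_option autoImplicit false

namespace Pool.Agent.J4H60.IX

open Finset Pool.Agent.J4H22.IX

theorem t_MAJ : S_MAJ := by
  classical
  intro Ω ι _ μ Z Bad k hk hμ h1 hb hZ
  by_contra hcon
  push Not at hcon
  have hpow : ∀ z ∈ Z, ∑ f : Fin (2 * k) → Ω, ∏ j, (μ (f j) * if f j ∈ Bad z then (8 : ℝ) else 1) ≤
      (15 / 8) ^ (2 * k) := by
    intro z hz
    rw [← Fintype.sum_pow (fun ω => μ ω * if ω ∈ Bad z then (8 : ℝ) else 1)]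
    refine pow_le_pow_left₀ (Finset.sum_nonneg fun ω _ => mul_nonneg (hμ ω) ?_) ?_ _
    · split_ifs <;> norm_num
    · have h2 : ∑ ω, (μ ω * if ω ∈ Bad z then (8 : ℝ) else 1) =
          ∑ ω, μ ω + 7 * ∑ ω, (Bad z).indicator μ ω := by
        rw [Finset.mul_sum, ← Finset.sum_add_distrib]
        refine Finset.sum_congr rfl fun ω _ => ?_
        by_cases h : ω ∈ Bad z
        · rw [if_pos h, Set.indicator_of_mem h]
          ring
        · rw [if_neg h, Set.indicator_of_notMem h]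
          ring
      rw [h2, h1]
      have := hb z hz
      linarith
  have htot : ∑ f : Fin (2 * k) → Ω, ∏ j, μ (f j) = 1 := by
    rw [← Fintype.sum_pow, h1, one_pow]
  have hpt : ∀ f : Fin (2 * k) → Ω, (8 : ℝ) ^ k * ∏ j, μ (f j) ≤
      ∑ z ∈ Z, ∏ j, (μ (f j) * if f j ∈ Bad z then (8 : ℝ) else 1) := by
    intro f
    obtain ⟨z, hz, hkz⟩ := hcon f
    refine le_trans ?_ (Finset.single_le_sum
      (f := fun z => ∏ j, (μ (f j) * if f j ∈ Bad z then (8 : ℝ) else 1)) (fun z' _ => ?_) hz)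
    · rw [Finset.prod_mul_distrib, mul_comm]
      have h3 : ∏ j : Fin (2 * k), (if f j ∈ Bad z then (8 : ℝ) else 1) =
          8 ^ (#{j : Fin (2 * k) | f j ∈ Bad z}) := by
        rw [Finset.prod_ite, Finset.prod_const, Finset.prod_const_one, mul_one]
      rw [h3]
      have h4 : k ≤ #{j : Fin (2 * k) | f j ∈ Bad z} := by
        have h5 : ({j | f j ∈ Bad z} : Set (Fin (2 * k))).ncard = #{j : Fin (2 * k) | f j ∈ Bad z} := by
          rw [← Set.ncard_coe_finset]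
          congr 1
          ext j
          simp
        rw [← h5]
        exact hkz
      have h6 : (8 : ℝ) ^ k ≤ 8 ^ (#{j : Fin (2 * k) | f j ∈ Bad z}) :=
        pow_le_pow_right₀ (by norm_num) h4
      have h7 : 0 ≤ ∏ j, μ (f j) := Finset.prod_nonneg fun j _ => hμ _
      exact mul_le_mul_of_nonneg_left h6 h7
    · exact Finset.prod_nonneg fun j _ => mul_nonneg (hμ _) (by split_ifs <;> norm_num)
  have h8 : (8 : ℝ) ^ k ≤ (Z.card : ℝ) * (15 / 8) ^ (2 * k) := by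
    calc (8 : ℝ) ^ k = (8 : ℝ) ^ k * ∑ f : Fin (2 * k) → Ω, ∏ j, μ (f j) := by rw [htot, mul_one]
      _ = ∑ f : Fin (2 * k) → Ω, (8 : ℝ) ^ k * ∏ j, μ (f j) := by rw [Finset.mul_sum]
      _ ≤ ∑ f : Fin (2 * k) → Ω, ∑ z ∈ Z, ∏ j, (μ (f j) * if f j ∈ Bad z then (8 : ℝ) else 1) :=
          Finset.sum_le_sum fun f _ => hpt f
      _ = ∑ z ∈ Z, ∑ f : Fin (2 * k) → Ω, ∏ j, (μ (f j) * if f j ∈ Bad z then (8 : ℝ) else 1) :=
          Finset.sum_comm
      _ ≤ ∑ z ∈ Z, (15 / 8 : ℝ) ^ (2 * k) := Finset.sum_le_sum hpow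
      _ = _ := by rw [Finset.sum_const, nsmul_eq_mul]
  have h9 : (Z.card : ℝ) ≤ 2 ^ k := by exact_mod_cast hZ
  have h10 : (8 : ℝ) ^ k ≤ (225 / 32) ^ k := by
    refine h8.trans ?_
    calc (Z.card : ℝ) * (15 / 8) ^ (2 * k) ≤ 2 ^ k * (15 / 8) ^ (2 * k) := by gcongr
      _ = (225 / 32) ^ k := by
          rw [pow_mul, ← mul_pow]
          norm_num
  have h11 : (225 / 32 : ℝ) ^ k < 8 ^ k := pow_lt_pow_left₀ (by norm_num) (by norm_num) (by omega)
  linarith

theorem t_HIT : S_HIT := by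
  classical
  intro Ω ι _ μ Z Good k hk hμ h1 hb hZ
  by_contra hcon
  push Not at hcon
  have hpow : ∀ z ∈ Z, ∑ f : Fin (4 * k) → Ω, ∏ j, (μ (f j) * if f j ∈ Good z then (0 : ℝ) else 1) ≤
      (5 / 6) ^ (4 * k) := by
    intro z hz
    rw [← Fintype.sum_pow (fun ω => μ ω * if ω ∈ Good z then (0 : ℝ) else 1)]
    refine pow_le_pow_left₀ (Finset.sum_nonneg fun ω _ => mul_nonneg (hμ ω) ?_) ?_ _
    · split_ifs <;> norm_num
    · have h2 : ∑ ω, (μ ω * if ω ∈ Good z then (0 : ℝ) else 1) =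
          ∑ ω, μ ω - ∑ ω, (Good z).indicator μ ω := by
        rw [← Finset.sum_sub_distrib]
        refine Finset.sum_congr rfl fun ω _ => ?_
        by_cases h : ω ∈ Good z
        · rw [if_pos h, Set.indicator_of_mem h]
          ring
        · rw [if_neg h, Set.indicator_of_notMem h]
          ring
      rw [h2, h1]
      have := hb z hz
      linarith
  have htot : ∑ f : Fin (4 * k) → Ω, ∏ j, μ (f j) = 1 := by
    rw [← Fintype.sum_pow, h1, one_pow]
  have hpt : ∀ f : Fin (4 * k) → Ω, ∏ j, μ (f j) ≤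
      ∑ z ∈ Z, ∏ j, (μ (f j) * if f j ∈ Good z then (0 : ℝ) else 1) := by
    intro f
    obtain ⟨z, hz, hkz⟩ := hcon f
    refine le_trans ?_ (Finset.single_le_sum
      (f := fun z => ∏ j, (μ (f j) * if f j ∈ Good z then (0 : ℝ) else 1)) (fun z' _ => ?_) hz)
    · refine le_of_eq (Finset.prod_congr rfl fun j _ => ?_)
      rw [if_neg (hkz j), mul_one]
    · exact Finset.prod_nonneg fun j _ => mul_nonneg (hμ _) (by split_ifs <;> norm_num)
  have h8 : (1 : ℝ) ≤ (Z.card : ℝ) * (5 / 6) ^ (4 * k) := by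
    calc (1 : ℝ) = ∑ f : Fin (4 * k) → Ω, ∏ j, μ (f j) := htot.symm
      _ ≤ ∑ f : Fin (4 * k) → Ω, ∑ z ∈ Z, ∏ j, (μ (f j) * if f j ∈ Good z then (0 : ℝ) else 1) :=
          Finset.sum_le_sum fun f _ => hpt f
      _ = ∑ z ∈ Z, ∑ f : Fin (4 * k) → Ω, ∏ j, (μ (f j) * if f j ∈ Good z then (0 : ℝ) else 1) :=
          Finset.sum_comm
      _ ≤ ∑ z ∈ Z, (5 / 6 : ℝ) ^ (4 * k) := Finset.sum_le_sum hpow
      _ = _ := by rw [Finset.sum_const, nsmul_eq_mul]
  have h9 : (Z.card : ℝ) ≤ 2 ^ k := by exact_mod_cast hZ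
  have h10 : (1 : ℝ) ≤ (625 / 648) ^ k := by
    refine h8.trans ?_
    calc (Z.card : ℝ) * (5 / 6) ^ (4 * k) ≤ 2 ^ k * (5 / 6) ^ (4 * k) := by gcongr
      _ = (625 / 648) ^ k := by
          rw [pow_mul, ← mul_pow]
          norm_num
  have h11 : (625 / 648 : ℝ) ^ k < 1 := pow_lt_one₀ (by norm_num) (by norm_num) (by omega)
  linarith

end Pool.Agent.J4H60.IX
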