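import Pool.Agent.J4H22.IX.Stm

/-! # Project IX (helper22): the pieces SAM and ISO -/

set_option autoImplicit false

namespace Pool.Agent.J4H60.IX

open Finset Pool.Agent.J4H22.IX

/-- the weight of a subset -/
noncomputable def wgt (A : Finset ℕ) (p : ℝ) (T : Finset ℕ) : ℝ := p ^ T.card * (1 - p) ^ (A \ T).card

lemma sum_f (A : Finset ℕ) (p : ℝ) (f g : ℕ → ℝ) (hf : ∀ i, f i = 0 ∨ f i = p)
    (hg : ∀ i, g i = 0 ∨ g i = 1 - p) : ∏ i ∈ A, (f i + g i) =
      ∑ T ∈ A.powerset, if (∀ i ∈ T, f i = p) ∧ (∀ i ∈ A \ T, g i = 1 - p) then wgt A p T else 0 := by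
  classical
  rw [Finset.prod_add]
  refine Finset.sum_congr rfl fun T _ => ?_
  split_ifs with h
  · unfold wgt
    rw [Finset.prod_congr rfl fun i hi => h.1 i hi, Finset.prod_const,
      Finset.prod_congr rfl fun i hi => h.2 i hi, Finset.prod_const]
  · rw [not_and_or] at h
    rcases h with h | h
    · push Not at h
      obtain ⟨i, hi, hne⟩ := h
      rw [Finset.prod_eq_zero hi ((hf i).resolve_right hne), zero_mul]
    · push Not at h
      obtain ⟨i, hi, hne⟩ := h
      rw [Finset.prod_eq_zero (s := A \ T) hi ((hg i).resolve_right hne), mul_zero]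

lemma sum_all (A : Finset ℕ) (p : ℝ) : ∑ T ∈ A.powerset, wgt A p T = 1 := by
  have h := sum_f A p (fun _ => p) (fun _ => 1 - p) (fun _ => Or.inr rfl) (fun _ => Or.inr rfl)
  simp only [implies_true, and_self, if_true, add_sub_cancel, Finset.prod_const_one] at h
  exact h.symm

lemma sum_disj (A : Finset ℕ) (p : ℝ) (X : Finset ℕ) (hX : X ⊆ A) :
    ∑ T ∈ A.powerset, (if Disjoint T X then wgt A p T else 0) = (1 - p) ^ X.card := by
  classical
  by_cases hp : p = 0
  · subst hp
    -- all the weight is at the empty set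
    rw [sub_zero, one_pow, Finset.sum_eq_single ∅]
    · rw [if_pos (Finset.disjoint_empty_left _)]
      simp [wgt]
    · intro T _ hT
      split_ifs
      · unfold wgt
        rw [zero_pow (by rwa [Ne, Finset.card_eq_zero]), zero_mul]
      · rfl
    · intro h
      exact absurd (Finset.empty_mem_powerset A) h
  · have h := sum_f A p (fun i => if i ∈ X then 0 else p) (fun _ => 1 - p)
      (fun i => by by_cases hi : i ∈ X <;> simp [hi]) (fun _ => Or.inr rfl)
    have h1 : ∏ i ∈ A, ((if i ∈ X then (0 : ℝ) else p) + (1 - p)) = (1 - p) ^ X.card := by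
      rw [← Finset.prod_sdiff hX]
      rw [Finset.prod_eq_one, one_mul, Finset.prod_congr rfl (g := fun _ => 1 - p), Finset.prod_const]
      · intro i hi
        rw [if_pos hi, zero_add]
      · intro i hi
        rw [if_neg (Finset.mem_sdiff.mp hi).2]
        ring
    rw [← h1, h]
    refine Finset.sum_congr rfl fun T _ => ?_
    congr 1
    simp only [implies_true, and_true, eq_iff_iff]
    rw [Finset.disjoint_left]
    constructor
    · intro h2 i hi
      rw [if_neg (h2 hi)]
    · intro h2 i hi hiX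
      have := h2 i hi
      rw [if_pos hiX] at this
      exact hp this.symm

lemma sum_one' (A : Finset ℕ) (p : ℝ) (X : Finset ℕ) (hX : X ⊆ A) (x : ℕ) (hx : x ∈ X) (hp0 : p ≠ 0)
    (hp1 : p ≠ 1) :
    ∑ T ∈ A.powerset, (if T ∩ X = {x} then wgt A p T else 0) = p * (1 - p) ^ (X.card - 1) := by
  classical
  have hq : 1 - p ≠ 0 := sub_ne_zero.mpr (Ne.symm hp1)
  have h := sum_f A p (fun i => if i ∈ X ∧ i ≠ x then 0 else p) (fun i => if i = x then 0 else 1 - p)
    (fun i => by by_cases hi : i ∈ X ∧ i ≠ x <;> simp [hi])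
    (fun i => by by_cases hi : i = x <;> simp [hi])
  have h1 : ∏ i ∈ A, ((if i ∈ X ∧ i ≠ x then (0 : ℝ) else p) + (if i = x then 0 else 1 - p)) =
      p * (1 - p) ^ (X.card - 1) := by
    rw [← Finset.prod_sdiff hX, Finset.prod_eq_one, one_mul, ← Finset.mul_prod_erase X _ hx]
    · congr 1
      · simp
      · rw [Finset.prod_congr rfl (g := fun _ => 1 - p), Finset.prod_const, Finset.card_erase_of_mem hx]
        intro i hi
        have h2 := Finset.mem_erase.mp hi
        rw [if_pos ⟨h2.2, h2.1⟩, if_neg h2.1, zero_add]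
    · intro i hi
      have h2 := (Finset.mem_sdiff.mp hi).2
      have h3 : i ≠ x := fun h4 => h2 (h4 ▸ hx)
      rw [if_neg (fun h4 => h2 h4.1), if_neg h3]
      ring
  rw [← h1, h]
  refine Finset.sum_congr rfl fun T hT => ?_
  rw [Finset.mem_powerset] at hT
  congr 1
  rw [eq_iff_iff]
  constructor
  · intro h2
    constructor
    · intro i hi
      rw [if_neg]
      rintro ⟨h3, h4⟩
      have h5 : i ∈ T ∩ X := Finset.mem_inter.mpr ⟨hi, h3⟩
      rw [h2, Finset.mem_singleton] at h5
      exact h4 h5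
    · intro i hi
      rw [if_neg]
      rintro rfl
      have h5 : i ∈ T ∩ X := by rw [h2]; exact Finset.mem_singleton_self _
      exact (Finset.mem_sdiff.mp hi).2 (Finset.mem_inter.mp h5).1
  · rintro ⟨h2, h3⟩
    ext i
    rw [Finset.mem_inter, Finset.mem_singleton]
    constructor
    · rintro ⟨h4, h5⟩
      by_contra h6
      have := h2 i h4
      rw [if_pos ⟨h5, h6⟩] at this
      exact hp0 this.symm
    · rintro rfl
      refine ⟨?_, hx⟩
      by_contra h6
      have := h3 i (Finset.mem_sdiff.mpr ⟨hX hx, h6⟩)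
      rw [if_pos rfl] at this
      exact hq this.symm

lemma card_one_iff {T X : Finset ℕ} : (T ∩ X).card = 1 ↔ ∃ x ∈ X, T ∩ X = {x} := by
  rw [Finset.card_eq_one]
  constructor
  · rintro ⟨x, hx⟩
    refine ⟨x, ?_, hx⟩
    have : x ∈ T ∩ X := by rw [hx]; exact Finset.mem_singleton_self _
    exact (Finset.mem_inter.mp this).2
  · rintro ⟨x, -, hx⟩
    exact ⟨x, hx⟩

lemma sum_one (A : Finset ℕ) (p : ℝ) (X : Finset ℕ) (hX : X ⊆ A) :
    ∑ T ∈ A.powerset, (if (T ∩ X).card = 1 then wgt A p T else 0) =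
      X.card * (p * (1 - p) ^ (X.card - 1)) := by
  classical
  by_cases hp0 : p = 0
  · subst hp0
    rw [zero_mul, mul_zero]
    refine Finset.sum_eq_zero fun T _ => ?_
    split_ifs with h
    · have : T.card ≠ 0 := by
        intro h2
        rw [Finset.card_eq_zero] at h2
        rw [h2, Finset.empty_inter, Finset.card_empty] at h
        omega
      unfold wgt
      rw [zero_pow this, zero_mul]
    · rfl
  by_cases hp1 : p = 1
  · subst hp1
    rw [sub_self, Finset.sum_eq_single A]
    · have h1 : wgt A 1 A = 1 := by simp [wgt]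
      rw [h1, Finset.inter_eq_right.mpr hX]
      by_cases h2 : X.card = 1
      · rw [if_pos h2, h2]
        norm_num
      · rw [if_neg h2]
        by_cases h3 : X.card = 0
        · rw [h3]
          norm_num
        · rw [zero_pow (by omega)]
          ring
    · intro T hT hne
      rw [Finset.mem_powerset] at hT
      have h2 : (A \ T).card ≠ 0 := by
        intro h3
        rw [Finset.card_eq_zero, Finset.sdiff_eq_empty_iff_subset] at h3
        exact hne (Finset.Subset.antisymm hT h3)
      split_ifs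
      · unfold wgt
        rw [sub_self, zero_pow h2, mul_zero]
      · rfl
    · intro h
      exact absurd (Finset.mem_powerset_self A) h
  have h1 : ∀ T ∈ A.powerset, (if (T ∩ X).card = 1 then wgt A p T else 0) =
      ∑ x ∈ X, (if T ∩ X = {x} then wgt A p T else 0) := by
    intro T _
    split_ifs with h
    · obtain ⟨x, hx, hTx⟩ := card_one_iff.mp h
      rw [Finset.sum_eq_single x]
      · rw [if_pos hTx]
      · intro y _ hy
        rw [if_neg]
        intro h2
        rw [hTx] at h2
        exact hy (Finset.singleton_injective h2).symm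
      · intro h2
        exact absurd hx h2
    · symm
      refine Finset.sum_eq_zero fun x hx => ?_
      rw [if_neg]
      intro h2
      exact h (card_one_iff.mpr ⟨x, hx, h2⟩)
  rw [Finset.sum_congr rfl h1, Finset.sum_comm,
    Finset.sum_congr rfl fun x hx => sum_one' A p X hX x hx hp0 hp1, Finset.sum_const, nsmul_eq_mul]

theorem t_SAM : S_SAM := by
  classical
  intro A p hp0 hp1
  refine ⟨fun T => wgt A p T.1, fun T => ?_, ?_, fun X hX => ⟨?_, ?_⟩⟩
  · unfold wgt
    have : 0 ≤ 1 - p := by linarith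
    positivity
  · rw [Finset.sum_coe_sort A.powerset (fun T => wgt A p T)]
    exact sum_all A p
  · have h1 : ∀ ω : A.powerset, ({T | Disjoint T.1 X} : Set A.powerset).indicator
        (fun T => wgt A p T.1) ω = (fun T => if Disjoint T X then wgt A p T else 0) ω.1 := by
      intro ω
      by_cases h : Disjoint ω.1 X
      · rw [Set.indicator_of_mem (by exact h)]
        simp only
        rw [if_pos h]
      · rw [Set.indicator_of_notMem (by exact h)]
        simp only
        rw [if_neg h]
    rw [Finset.sum_congr rfl fun ω _ => h1 ω, Finset.sum_coe_sort A.powerset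
      (fun T => if Disjoint T X then wgt A p T else 0)]
    exact sum_disj A p X hX
  · have h1 : ∀ ω : A.powerset, ({T | (T.1 ∩ X).card = 1} : Set A.powerset).indicator
        (fun T => wgt A p T.1) ω = (fun T => if (T ∩ X).card = 1 then wgt A p T else 0) ω.1 := by
      intro ω
      by_cases h : (ω.1 ∩ X).card = 1
      · rw [Set.indicator_of_mem (by exact h)]
        simp only
        rw [if_pos h]
      · rw [Set.indicator_of_notMem (by exact h)]
        simp only
        rw [if_neg h]
    rw [Finset.sum_congr rfl fun ω _ => h1 ω, Finset.sum_coe_sort A.powerset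
      (fun T => if (T ∩ X).card = 1 then wgt A p T else 0)]
    exact sum_one A p X hX

/-! ### Isolation -/

/-- the first members of the representations of `z` -/
def Xz (A B : Finset ℕ) (z : ℕ) : Finset ℕ := A.filter fun x => x ≤ z ∧ z - x ∈ B

lemma rep_eq (A B T : Finset ℕ) (hT : T ⊆ A) (z : ℕ) : rep T B z = (T ∩ Xz A B z).card := by
  classical
  unfold rep Xz
  refine Finset.card_bij (fun q _ => q.1) ?_ ?_ ?_
  · intro q hq
    simp only [Finset.mem_filter, Finset.mem_product] at hq
    simp only [Finset.mem_inter, Finset.mem_filter]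
    refine ⟨hq.1.1, hT hq.1.1, by omega, ?_⟩
    rw [show z - q.1 = q.2 by omega]
    exact hq.1.2
  · intro q hq q' hq' h
    simp only [Finset.mem_filter, Finset.mem_product] at hq hq'
    ext
    · exact h
    · have := hq.2
      have := hq'.2
      omega
  · intro x hx
    simp only [Finset.mem_inter, Finset.mem_filter] at hx
    refine ⟨(x, z - x), ?_, rfl⟩
    simp only [Finset.mem_filter, Finset.mem_product]
    exact ⟨⟨hx.1, hx.2.2.2⟩, by omega⟩

lemma prob_ge (i r : ℕ) (hr1 : 1 ≤ r) (hr2 : r ≤ 2 ^ i) (hr3 : 2 ^ i < 2 * r) :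
    (1 / 6 : ℝ) ≤ r * ((1 / 2 ^ i) * (1 - 1 / 2 ^ i) ^ (r - 1)) := by
  rcases Nat.eq_zero_or_pos i with hi | hi
  · subst hi
    have : r = 1 := by
      rw [pow_zero] at hr2
      omega
    subst this
    norm_num
  · set m : ℝ := 2 ^ i with hm
    have hm2 : 2 ≤ m := by
      have : (2 : ℝ) ^ 1 ≤ 2 ^ i := pow_le_pow_right₀ (by norm_num) hi
      simpa using this
    have hr2' : (r : ℝ) ≤ m := by
      rw [hm]
      exact_mod_cast hr2
    have hr3' : m < 2 * r := by
      rw [hm]
      exact_mod_cast hr3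
    have hq0 : 0 < 1 - 1 / m := by
      have : 1 / m ≤ 1 / 2 := one_div_le_one_div_of_le (by norm_num) hm2
      linarith
    -- `(1 - 1/m) ^ (r - 1) ≥ exp (-1)`
    have h1 : Real.exp (-(1 / (m - 1))) ≤ 1 - 1 / m := by
      have h2 : 1 + 1 / (m - 1) ≤ Real.exp (1 / (m - 1)) := by
        have := Real.add_one_le_exp (1 / (m - 1))
        linarith
      have h3 : (1 - 1 / m)⁻¹ = 1 + 1 / (m - 1) := by
        have : m - 1 ≠ 0 := by linarith
        have : m ≠ 0 := by linarith
        field_simp
        ring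
      rw [Real.exp_neg]
      rw [← h3] at h2
      exact inv_le_of_inv_le₀ hq0 h2
    have h4 : Real.exp (-1) ≤ (1 - 1 / m) ^ (r - 1) := by
      have h5 : Real.exp (-(1 / (m - 1))) ^ (r - 1) ≤ (1 - 1 / m) ^ (r - 1) :=
        pow_le_pow_left₀ (Real.exp_pos _).le h1 _
      refine le_trans ?_ h5
      rw [← Real.exp_nat_mul]
      apply Real.exp_le_exp.mpr
      have h6 : ((r - 1 : ℕ) : ℝ) = r - 1 := by
        rw [Nat.cast_sub hr1, Nat.cast_one]
      rw [h6]
      have h7 : ((r : ℝ) - 1) / (m - 1) ≤ 1 := by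
        rw [div_le_one (by linarith)]
        linarith
      have h8 : ((r : ℝ) - 1) * -(1 / (m - 1)) = -(((r : ℝ) - 1) / (m - 1)) := by ring
      rw [h8]
      linarith
    have h9 : (1 / 3 : ℝ) ≤ Real.exp (-1) := by
      rw [Real.exp_neg, one_div]
      exact inv_anti₀ (Real.exp_pos 1) (by linarith [Real.exp_one_lt_d9])
    have h10 : (1 / 2 : ℝ) ≤ r * (1 / m) := by
      rw [mul_one_div, le_div_iff₀ (by linarith)]
      linarith
    calc (1 / 6 : ℝ) = 1 / 2 * (1 / 3) := by norm_num
      _ ≤ (r * (1 / m)) * (1 - 1 / m) ^ (r - 1) := by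
          apply mul_le_mul h10 (h9.trans h4) (by norm_num)
          positivity
      _ = r * ((1 / m) * (1 - 1 / m) ^ (r - 1)) := by ring

theorem t_ISO : S_ISO := by
  classical
  intro hHIT hSAM w A B hA
  have key : ∀ i : Fin (w + 1), ∃ f : Fin (4 * (w + 1)) → A.powerset,
      ∀ z < 2 ^ (w + 1), 1 ≤ rep A B z → rep A B z ≤ 2 ^ (i : ℕ) → 2 ^ (i : ℕ) < 2 * rep A B z →
        ∃ j, rep (f j).1 B z = 1 := by
    intro i
    obtain ⟨μ, hμ0, hμ1, hμ⟩ := hSAM A (1 / 2 ^ (i : ℕ)) (by positivity) (by
      rw [div_le_one (by positivity)]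
      exact one_le_pow₀ (by norm_num))
    obtain ⟨f, hf⟩ := hHIT A.powerset ℕ μ
      ((Finset.range (2 ^ (w + 1))).filter fun z => 1 ≤ rep A B z ∧ rep A B z ≤ 2 ^ (i : ℕ) ∧
        2 ^ (i : ℕ) < 2 * rep A B z)
      (fun z => {T | (T.1 ∩ Xz A B z).card = 1}) (w + 1) (by omega) hμ0 hμ1 (by
        intro z hz
        simp only [Finset.mem_filter, Finset.mem_range] at hz
        have hX : Xz A B z ⊆ A := Finset.filter_subset _ _
        rw [(hμ _ hX).2]
        have h1 : (Xz A B z).card = rep A B z := by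
          rw [rep_eq A B A (Finset.Subset.refl A) z, Finset.inter_eq_right.mpr hX]
        rw [h1]
        exact prob_ge _ _ hz.2.1 hz.2.2.1 hz.2.2.2) (by
        refine (Finset.card_filter_le _ _).trans ?_
        rw [Finset.card_range])
    refine ⟨f, fun z hz h1 h2 h3 => ?_⟩
    obtain ⟨j, hj⟩ := hf z (by
      simp only [Finset.mem_filter, Finset.mem_range]
      exact ⟨hz, h1, h2, h3⟩)
    refine ⟨j, ?_⟩
    rw [rep_eq A B (f j).1 (Finset.mem_powerset.mp (f j).2) z]
    exact hj
  choose f hf using key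
  refine ⟨fun i j => (f i j).1, fun i j => Finset.mem_powerset.mp (f i j).2, fun z hz h1 => ?_⟩
  have hX : Xz A B z ⊆ A := Finset.filter_subset _ _
  have hr : rep A B z ≤ 2 ^ w := by
    rw [rep_eq A B A (Finset.Subset.refl A) z, Finset.inter_eq_right.mpr hX]
    exact (Finset.card_le_card hX).trans hA
  -- the level
  have h2 : Nat.clog 2 (rep A B z) ≤ w := (Nat.clog_le_iff_le_pow (by norm_num)).mpr hr
  have h3 : rep A B z ≤ 2 ^ Nat.clog 2 (rep A B z) := Nat.le_pow_clog (by norm_num) _
  have h4 : 2 ^ Nat.clog 2 (rep A B z) < 2 * rep A B z := by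
    rcases Nat.lt_or_ge 1 (rep A B z) with h5 | h5
    · have h6 := Nat.pow_pred_clog_lt_self (b := 2) (by norm_num) h5
      have h7 : 0 < Nat.clog 2 (rep A B z) := Nat.clog_pos (by norm_num) (by omega)
      obtain ⟨c, hc⟩ : ∃ c, Nat.clog 2 (rep A B z) = c + 1 := ⟨Nat.clog 2 (rep A B z) - 1, by omega⟩
      rw [hc, Nat.pred_succ] at h6
      rw [hc, pow_succ]
      omega
    · have h6 : rep A B z = 1 := by omega
      rw [h6]
      simp
  obtain ⟨j, hj⟩ := hf ⟨Nat.clog 2 (rep A B z), by omega⟩ z hz h1 h3 h4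
  exact ⟨_, j, hj⟩

end Pool.Agent.J4H60.IX
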