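import Pool.Agent.J4H22.IX.Stm2

set_option autoImplicit false

/-! Project IX (helper22), part 2, piece DER: few coins for all inputs, then the majority of `2 (w + 1)` of them. -/

namespace Pool.Agent.J4H60.IX

open Finset Pool.Agent.J4H22.IX

/-- the number of sets of at most `n` numbers below `N` -/
theorem card_small (n N : ℕ) :
    (((range N).powerset).filter (fun S => S.card ≤ n)).card ≤ (N + 1) ^ n := by
  classical
  have h1 : ((range N).powerset).filter (fun S => S.card ≤ n) ⊆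
      (Fintype.piFinset (fun _ : Fin n => range (N + 1))).image
        (fun g => (univ.image g).erase N) := by
    intro S hS
    rw [mem_filter, mem_powerset] at hS
    obtain ⟨hS1, hS2⟩ := hS
    rw [mem_image]
    refine ⟨fun i => if h : (i : ℕ) < S.card then S.orderEmbOfFin rfl ⟨i, h⟩ else N, ?_, ?_⟩
    · rw [Fintype.mem_piFinset]
      intro i
      rw [mem_range]
      split
      · rename_i h
        have h2 := hS1 (S.orderEmbOfFin_mem rfl ⟨i, h⟩)
        rw [mem_range] at h2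
        omega
      · omega
    · ext x
      rw [mem_erase, mem_image]
      constructor
      · rintro ⟨hx, i, -, hi⟩
        split at hi
        · rename_i h
          rw [← hi]
          exact S.orderEmbOfFin_mem rfl ⟨i, h⟩
        · exact absurd hi.symm hx
      · intro hx
        have hxN := mem_range.1 (hS1 hx)
        refine ⟨by omega, ?_⟩
        have h3 : x ∈ Set.range (S.orderEmbOfFin rfl) := by
          rw [range_orderEmbOfFin]
          exact hx
        obtain ⟨j, hj⟩ := h3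
        refine ⟨⟨j, lt_of_lt_of_le j.2 hS2⟩, mem_univ _, ?_⟩
        rw [dif_pos j.2]
        exact hj
  refine (card_le_card h1).trans (card_image_le.trans ?_)
  rw [Fintype.card_piFinset_const, card_range]

theorem sum_ind_const {M : ℕ} (S : Set (Fin M)) (c : ℝ) :
    ∑ j, S.indicator (fun _ => c) j = S.ncard * c := by
  classical
  simp only [Set.indicator_apply]
  rw [sum_ite, sum_const_zero, add_zero, sum_const, nsmul_eq_mul]
  congr 2
  rw [Set.ncard_eq_toFinset_card']
  congr 1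
  ext j
  simp

theorem sum_ind_compl {Ω : Type} [Fintype Ω] (μ : Ω → ℝ) (S : Set Ω) :
    ∑ ω, S.indicator μ ω + ∑ ω, {ω | ω ∉ S}.indicator μ ω = ∑ ω, μ ω := by
  classical
  rw [← sum_add_distrib]
  refine sum_congr rfl fun ω _ => ?_
  by_cases h : ω ∈ S
  · rw [Set.indicator_of_mem h, Set.indicator_of_notMem (by simpa using h), add_zero]
  · rw [Set.indicator_of_notMem h, Set.indicator_of_mem (by simpa using h), zero_add]

/-- no sum is as large as `2 N` -/
theorem rep_big {A B : Finset ℕ} {N z : ℕ} (hA : ∀ x ∈ A, x < N) (hB : ∀ y ∈ B, y < N)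
    (hz : 2 * N ≤ z) : rep A B z = 0 := by
  unfold rep
  rw [card_eq_zero, filter_eq_empty_iff]
  rintro ⟨x, y⟩ hxy h
  rw [mem_product] at hxy
  have h1 := hA _ hxy.1
  have h2 := hB _ hxy.2
  simp only at h h1 h2
  omega

/-- the majority -/
theorem major {k : ℕ} (o : Fin (2 * k) → Bool) (P : Prop)
    (h : {j | ¬ (o j = true ↔ P)}.ncard < k) :
    decide (k ≤ (univ.filter (fun j => o j = true)).card) = true ↔ P := by
  classical
  rw [Set.ncard_eq_toFinset_card'] at h
  rw [decide_eq_true_iff]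
  by_cases hP : P
  · simp only [hP, iff_true] at h ⊢
    have h1 : (univ.filter (fun j => o j = true)).card +
        (univ.filter (fun j => ¬ o j = true)).card = 2 * k := by
      rw [card_filter_add_card_filter_not, card_univ, Fintype.card_fin]
    have h2 : (Set.toFinset {j | ¬ o j = true}) = univ.filter (fun j => ¬ o j = true) := by
      ext j; simp
    rw [h2] at h
    omega
  · simp only [hP, iff_false, not_not] at h ⊢
    have h2 : (Set.toFinset {j | o j = true}) = univ.filter (fun j => o j = true) := by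
      ext j; simp
    rw [h2] at h
    omega

theorem arith {n w : ℕ} (hw : 8 ≤ w) (hn : n ^ 8 ≤ 2 ^ w) :
    8 * (3 * (w + 1) * (n + 1)) ≤ 2 ^ w * 2 ^ w := by
  have h1 : w + 1 ≤ 2 ^ w := Nat.lt_two_pow_self
  have h2 : (256 : ℕ) ≤ 2 ^ w := by
    calc (256 : ℕ) = 2 ^ 8 := by norm_num
      _ ≤ 2 ^ w := Nat.pow_le_pow_right (by norm_num) hw
  rcases Nat.lt_or_ge n 2 with h | h
  · calc 8 * (3 * (w + 1) * (n + 1)) ≤ 8 * (3 * (w + 1) * 2) := by gcongr; omega
      _ = 48 * (w + 1) := by ring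
      _ ≤ 2 ^ w * 2 ^ w := Nat.mul_le_mul (by omega) h1
  · have h3 : 128 * n ≤ n ^ 8 := by
      calc 128 * n = 2 ^ 7 * n := by norm_num
        _ ≤ n ^ 7 * n := Nat.mul_le_mul_right _ (Nat.pow_le_pow_left h 7)
        _ = n ^ 8 := by ring
    calc 8 * (3 * (w + 1) * (n + 1)) = (w + 1) * (24 * (n + 1)) := by ring
      _ ≤ 2 ^ w * 2 ^ w := Nat.mul_le_mul h1 (by omega)

theorem t_DER : S_DER := by
  intro hNEW hMAJ hTRE hIDX n N s w t hw hn hN hR
  classical
  obtain ⟨Ω, hΩ, μ, Q, hμ0, hμ1, hQ, hst⟩ := hR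
  have : Inhabited (Fin (2 ^ w)) := ⟨⟨0, by positivity⟩⟩
  -- the memory for `A`, `B`
  have hmem : ∀ A B : Finset ℕ, ∃ m : Ω → Fin s → Fin (2 ^ w), A.card ≤ n → B.card ≤ n →
      (∀ x ∈ A, x < N) → (∀ y ∈ B, y < N) → ∀ z,
        1 / 2 + 31 / 64 ≤ ∑ ω, ({ω | OkWeak A B z ((Q ω z).eval (m ω))} : Set Ω).indicator μ ω := by
    intro A B
    by_cases h : A.card ≤ n ∧ B.card ≤ n ∧ (∀ x ∈ A, x < N) ∧ (∀ y ∈ B, y < N)
    · obtain ⟨m, hm⟩ := hst A B h.1 h.2.1 h.2.2.1 h.2.2.2
      exact ⟨m, fun _ _ _ _ => hm⟩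
    · exact ⟨fun _ _ => default, fun h1 h2 h3 h4 => absurd ⟨h1, h2, h3, h4⟩ h⟩
  choose M hM using hmem
  set m := 3 * (w + 1) * (n + 1) with hm
  have hm1 : 1 ≤ m := Nat.one_le_iff_ne_zero.2 (by positivity)
  set P := ((range N).powerset).filter (fun S => S.card ≤ n) with hP
  have hPc : P.card ≤ 2 ^ ((w + 1) * n) := by
    refine (card_small n N).trans ?_
    rw [pow_mul]
    apply Nat.pow_le_pow_left
    have : 1 ≤ 2 ^ w := Nat.one_le_two_pow
    rw [pow_succ]
    omega
  have hZc : (P ×ˢ P ×ˢ range (2 * N)).card ≤ 2 ^ m := by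
    rw [card_product, card_product, card_range]
    have h2 : 2 * N ≤ 2 ^ (w + 1) := by rw [pow_succ]; omega
    calc P.card * (P.card * (2 * N)) ≤ 2 ^ ((w + 1) * n) * (2 ^ ((w + 1) * n) * 2 ^ (w + 1)) :=
          Nat.mul_le_mul hPc (Nat.mul_le_mul hPc h2)
      _ = 2 ^ ((w + 1) * n + ((w + 1) * n + (w + 1))) := by rw [← pow_add, ← pow_add]
      _ ≤ 2 ^ m := by
          apply Nat.pow_le_pow_right (by norm_num)
          rw [hm]
          nlinarith
  obtain ⟨f, hf⟩ := hNEW Ω (Finset ℕ × Finset ℕ × ℕ) μ (P ×ˢ P ×ˢ range (2 * N))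
    (fun q => {ω | ω ∉ ({ω | OkWeak q.1 q.2.1 q.2.2 ((Q ω q.2.2).eval (M q.1 q.2.1 ω))} : Set Ω)})
    m hm1 hμ0 hμ1 (by
      rintro ⟨A, B, z⟩ hq
      simp only [mem_product, hP, mem_filter, mem_powerset] at hq
      obtain ⟨⟨hA1, hA2⟩, ⟨hB1, hB2⟩, -⟩ := hq
      have h1 := hM A B hA2 hB2 (fun x hx => mem_range.1 (hA1 hx)) (fun y hy => mem_range.1 (hB1 hy)) z
      have h2 := sum_ind_compl μ ({ω | OkWeak A B z ((Q ω z).eval (M A B ω))} : Set Ω)
      rw [hμ1] at h2
      simp only at h1 h2 ⊢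
      linarith) hZc
  set k := w + 1 with hk
  have h8m : 0 < 8 * m := by omega
  -- the coin with index `x`
  set f' : ℕ → Ω := fun x => if h : x < 8 * m then f ⟨x, h⟩ else f ⟨0, h8m⟩ with hf'
  have hTr : ∀ z, ∃ T : Tree ((Fin (2 * k) × Bool) ⊕ Fin (2 * k) × Fin s) (Fin (2 ^ w)) Bool,
      T.Probes (2 * k * (t + 2)) ∧ (2 * N ≤ z → ∀ μ', T.eval μ' = false) ∧ (z < 2 * N →
      ∀ μ' : (Fin (2 * k) × Bool) ⊕ Fin (2 * k) × Fin s → Fin (2 ^ w), T.eval μ' =
        decide (k ≤ (univ.filter (fun c : Fin (2 * k) =>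
          (Q (f' ((μ' (Sum.inl (c, false)) : ℕ) + 2 ^ w * (μ' (Sum.inl (c, true)) : ℕ))) z).eval
            (fun i => μ' (Sum.inr (c, i))) = true)).card)) := by
    intro z
    rcases Nat.lt_or_ge z (2 * N) with hz | hz
    · obtain ⟨T, hT1, hT2⟩ := hTRE (Fin s) (Fin (2 ^ w)) Bool Bool (Fin (2 * k) × Bool) (Fin (2 * k))
        (fun q => Q (f' (Nat.unpair q).1) (Nat.unpair q).2) t (fun q => hQ _ _)
        (fun e c => Nat.pair ((e (c, false) : ℕ) + 2 ^ w * (e (c, true) : ℕ)) z)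
        (fun _ o => decide (k ≤ (univ.filter (fun c => o c = true)).card))
      refine ⟨T, ?_, fun h => absurd hz (not_lt.2 h), fun _ μ' => ?_⟩
      · have h1 : Fintype.card (Fin (2 * k) × Bool) + Fintype.card (Fin (2 * k)) * t =
            2 * k * (t + 2) := by
          rw [Fintype.card_prod, Fintype.card_fin, Fintype.card_bool]; ring
        rw [← h1]
        exact hT1
      · rw [hT2]
        simp only [Nat.unpair_pair]
    · exact ⟨Tree.ret false, trivial, fun _ _ => rfl, fun h => absurd h (not_lt.2 hz)⟩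
  choose T hT1 hT2 hT3 using hTr
  obtain ⟨Q', hQ'1, hQ'2⟩ := hIDX ((Fin (2 * k) × Bool) ⊕ Fin (2 * k) × Fin s) (Fin (2 ^ w)) Bool
    (2 * k * (s + 2)) (2 * k * (t + 2)) (le_of_eq (by
      rw [Fintype.card_sum, Fintype.card_prod, Fintype.card_prod, Fintype.card_fin,
        Fintype.card_fin, Fintype.card_bool]; ring)) T hT1
  refine ⟨Q', hQ'1, fun A B hA hB hAN hBN => ?_⟩
  -- the choice of the coins for `A`, `B`
  obtain ⟨g, hg⟩ := hMAJ (Fin (8 * m)) ℕ (fun _ => 1 / (8 * m : ℝ)) (range (2 * N))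
    (fun z => {j | f j ∈ ({ω | ω ∉ ({ω | OkWeak A B z ((Q ω z).eval (M A B ω))} : Set Ω)} : Set Ω)})
    k (by omega) (fun _ => by positivity) (by
      rw [sum_const, card_univ, Fintype.card_fin, nsmul_eq_mul]
      have : (m : ℝ) ≠ 0 := by positivity
      push_cast
      field_simp) (by
      intro z hz
      rw [sum_ind_const]
      have h1 := hf (A, B, z) (by
        simp only [mem_product, hP, mem_filter, mem_powerset]
        exact ⟨⟨fun x hx => mem_range.2 (hAN x hx), hA⟩,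
          ⟨fun x hx => mem_range.2 (hBN x hx), hB⟩, hz⟩)
      have h2 : (({j | f j ∈ ({ω | ω ∉ ({ω | OkWeak A B z ((Q ω z).eval (M A B ω))} : Set Ω)} :
        Set Ω)} : Set (Fin (8 * m))).ncard : ℝ) ≤ m := by exact_mod_cast h1.le
      have h3 : (0 : ℝ) < m := by positivity
      rw [mul_one_div, div_le_div_iff₀ (by positivity) (by norm_num)]
      linarith) (by
      rw [card_range, hk, pow_succ]
      omega)
  -- the memory
  have hlt : ∀ c, (g c : ℕ) < 2 ^ w * 2 ^ w := fun c => lt_of_lt_of_le (g c).2 (arith hw hn)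
  set μ' : (Fin (2 * k) × Bool) ⊕ Fin (2 * k) × Fin s → Fin (2 ^ w) := fun x =>
    match x with
    | Sum.inl (c, false) => ⟨(g c : ℕ) % 2 ^ w, Nat.mod_lt _ (by positivity)⟩
    | Sum.inl (c, true) => ⟨(g c : ℕ) / 2 ^ w, Nat.div_lt_of_lt_mul (hlt c)⟩
    | Sum.inr (c, i) => M A B (f (g c)) i with hμ'
  obtain ⟨m', hm'⟩ := hQ'2 μ'
  refine ⟨m', fun z => ?_⟩
  rw [hm']
  rcases Nat.lt_or_ge z (2 * N) with hz | hz
  · rw [hT3 z hz]
    intro hrep
    have hfg : ∀ c, f' ((μ' (Sum.inl (c, false)) : ℕ) + 2 ^ w * (μ' (Sum.inl (c, true)) : ℕ)) =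
        f (g c) := by
      intro c
      have h1 : (μ' (Sum.inl (c, false)) : ℕ) + 2 ^ w * (μ' (Sum.inl (c, true)) : ℕ) = (g c : ℕ) :=
        Nat.mod_add_div _ _
      rw [h1, hf']
      simp only [(g c).2, dite_true, Fin.eta]
    simp only [hfg]
    apply major
    refine lt_of_le_of_lt (Set.ncard_le_ncard ?_ (Set.toFinite _)) (hg z (mem_range.2 hz))
    intro c hc hc2
    exact hc (hc2 hrep)
  · rw [hT2 z hz]
    intro _
    rw [rep_big hAN hBN hz]
    simp

end Pool.Agent.J4H60.IX
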